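import Mathlib

/-!
# Many primes that do not divide a given number
-/

set_option autoImplicit false

namespace Pool.Agent.Helper86.Bar

open Finset Filter

theorem two_pow_card_le (s : Finset ℕ) (hs : ∀ p ∈ s, p.Prime) : 2 ^ s.card ≤ ∏ p ∈ s, p := by
  rw [← Finset.prod_const]
  exact Finset.prod_le_prod' fun p hp => (hs p hp).two_le

theorem card_primeFactors_le (M : ℕ) (hM : 0 < M) :
    (M.primeFactors.card : ℝ) * Real.log 2 ≤ Real.log M := by
  have h1 : 2 ^ M.primeFactors.card ≤ M :=
    (two_pow_card_le _ fun p hp => Nat.prime_of_mem_primeFactors hp).trans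
      (Nat.le_of_dvd hM (Nat.prod_primeFactors_dvd M))
  have h2 : ((2 ^ M.primeFactors.card : ℕ) : ℝ) ≤ (M : ℝ) := by exact_mod_cast h1
  have h3 := Real.log_le_log (by positivity) h2
  push_cast at h3
  rwa [Real.log_pow] at h3

/-- the primes `7 ≤ p ≤ n` that do not divide `M` -/
def good (n M : ℕ) : Finset ℕ := (range (n + 1)).filter (fun p => p.Prime ∧ 7 ≤ p ∧ ¬ p ∣ M)

theorem pi_le (n M : ℕ) (hM : 0 < M) :
    Nat.primeCounting n ≤ (good n M).card + 7 + M.primeFactors.card := by
  have h1 : Nat.primeCounting n = ((range (n + 1)).filter Nat.Prime).card := by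
    rw [Nat.primeCounting, Nat.primeCounting', Nat.count_eq_card_filter_range]
  rw [h1]
  have h2 : (range (n + 1)).filter Nat.Prime ⊆ (good n M ∪ range 7) ∪ M.primeFactors := by
    intro p hp
    obtain ⟨hp1, hp2⟩ := mem_filter.mp hp
    rw [mem_union, mem_union]
    by_cases h7 : 7 ≤ p
    · by_cases hd : p ∣ M
      · exact Or.inr (Nat.mem_primeFactors.mpr ⟨hp2, hd, hM.ne'⟩)
      · exact Or.inl (Or.inl (mem_filter.mpr ⟨hp1, hp2, h7, hd⟩))
    · exact Or.inl (Or.inr (mem_range.mpr (by omega)))
  refine (card_le_card h2).trans ((card_union_le _ _).trans ?_)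
  refine Nat.add_le_add_right ((card_union_le _ _).trans ?_) _
  rw [card_range]

theorem many_primes (η A : ℝ) (hη : 0 < η) : ∃ n₀ : ℕ, ∀ n : ℕ, n₀ ≤ n → ∀ M : ℕ, 0 < M →
    Real.log M ≤ A * Real.log n → (n : ℝ) ^ (1 - η) ≤ ((good n M).card : ℝ) := by
  have hl2 : 0 < Real.log 2 := Real.log_pos (by norm_num)
  -- the asymptotic inequality
  have key : ∀ᶠ x : ℝ in atTop, x ^ (1 - η) * Real.log x + 7 * Real.log x +
      A / Real.log 2 * (Real.log x * Real.log x) + (Real.log x + Real.log 2) ≤
        x * Real.log 2 := by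
    have e1 : (fun x : ℝ => x ^ (1 - η) * Real.log x) =o[atTop] (fun x : ℝ => x) := by
      have h1 := (isLittleO_log_rpow_atTop (r := η) hη)
      have h2 : (fun x : ℝ => x ^ (1 - η) * Real.log x) =o[atTop]
          (fun x : ℝ => x ^ (1 - η) * x ^ η) :=
        (Asymptotics.isBigO_refl _ _).mul_isLittleO h1
      refine h2.congr' (EventuallyEq.refl _ _) ?_
      filter_upwards [eventually_gt_atTop 0] with x hx
      rw [← Real.rpow_add hx]
      simp
    have e2 : (fun x : ℝ => Real.log x) =o[atTop] (fun x : ℝ => x) := Real.isLittleO_log_id_atTop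
    have e3 : (fun x : ℝ => Real.log x * Real.log x) =o[atTop] (fun x : ℝ => x) := by
      have h1 := (isLittleO_log_rpow_atTop (r := 1 / 2) (by norm_num))
      have h2 := h1.mul h1
      refine h2.congr' (EventuallyEq.refl _ _) ?_
      filter_upwards [eventually_gt_atTop 0] with x hx
      rw [← Real.rpow_add hx]
      norm_num
    have e4 : (fun _ : ℝ => Real.log 2) =o[atTop] (fun x : ℝ => x) :=
      Asymptotics.isLittleO_const_id_atTop _
    have e5 := ((e1.add (e2.const_mul_left 7)).add (e3.const_mul_left (A / Real.log 2))).add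
      (e2.add e4)
    have h6 := e5.bound (c := Real.log 2) hl2
    filter_upwards [h6, eventually_gt_atTop 0] with x hx hx0
    rw [Real.norm_eq_abs, Real.norm_eq_abs, abs_of_pos hx0] at hx
    have := (le_abs_self _).trans hx
    linarith
  obtain ⟨x₀, hx₀⟩ := eventually_atTop.mp key
  refine ⟨max ⌈x₀⌉₊ 2, fun n hn M hM hA => ?_⟩
  have hn2 : 2 ≤ n := (le_max_right _ _).trans hn
  have hn2R : (2 : ℝ) ≤ n := by exact_mod_cast hn2
  have hnx : x₀ ≤ n := (Nat.le_ceil x₀).trans (by exact_mod_cast (le_max_left _ _).trans hn)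
  have h1 := hx₀ n hnx
  have hlog : 0 < Real.log n := Real.log_pos (by linarith)
  have h2 := Chebyshev.pi_ge n
  rw [div_le_iff₀ hlog] at h2
  have h3 : (Nat.primeCounting n : ℝ) ≤ (good n M).card + 7 + M.primeFactors.card := by
    exact_mod_cast pi_le n M hM
  have h4 := card_primeFactors_le M hM
  have h5 : Real.log ((n : ℝ) + 1) ≤ Real.log n + Real.log 2 := by
    rw [← Real.log_mul (by positivity) (by norm_num)]
    exact Real.log_le_log (by positivity) (by linarith)
  have h6 : (M.primeFactors.card : ℝ) * Real.log n ≤ A / Real.log 2 * (Real.log n * Real.log n) := by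
    have h7 : (M.primeFactors.card : ℝ) ≤ A * Real.log n / Real.log 2 := by
      rw [le_div_iff₀ hl2]
      linarith
    calc (M.primeFactors.card : ℝ) * Real.log n ≤ A * Real.log n / Real.log 2 * Real.log n := by
          gcongr
      _ = _ := by ring
  have h8 : (n : ℝ) ^ (1 - η) * Real.log n ≤ ((good n M).card : ℝ) * Real.log n := by
    have h9 : (Nat.primeCounting n : ℝ) * Real.log n ≤
        ((good n M).card + 7 + M.primeFactors.card) * Real.log n := by gcongr
    nlinarith
  exact le_of_mul_le_mul_right h8 hlog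

end Pool.Agent.Helper86.Bar
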